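import Mathlib
import Pool.Agent.Helper82.IW.Goals

/-!
# Iwaniec's conjecture, part (e) of packet ONE: the integral of `τ √(gr H)`
-/

open Complex MeasureTheory Set Filter Topology
open scoped ContDiff ComplexConjugate

namespace Pool.Agent.Helper57.IW

open Pool.Agent.Helper28.BA (dz db psi)
open Pool.Agent.Helper82.IW

noncomputable section

theorem isCompact_Q : IsCompact Q := by
  unfold Q
  exact isCompact_Icc.reProdIm isCompact_Icc

theorem integrableOn_Q {E : Type*} [NormedAddCommGroup E] {f : ℂ → E} (hf : Continuous f) :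
    IntegrableOn f Q volume :=
  hf.continuousOn.integrableOn_compact isCompact_Q

theorem Rr_pos {ε : ℝ} (hε : 0 < ε) (H : ℂ → ℂ) (z : ℂ) : 0 < Rr ε H z := by
  unfold Rr
  positivity

theorem Rr_sq {ε : ℝ} (H : ℂ → ℂ) (z : ℂ) : Rr ε H z ^ 2 = ‖H z‖ ^ 2 + ε ^ 2 := by
  unfold Rr
  exact Real.sq_sqrt (by positivity)

theorem ta_nonneg {ν ρ r : ℝ} (hρ : 0 < ρ) (hr : 0 ≤ r) : 0 ≤ ta ν ρ r := by
  unfold ta
  positivity

theorem ta_le_one {ν ρ r : ℝ} (hρ : 0 < ρ) (hr : 0 ≤ r) : ta ν ρ r ≤ 1 := by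
  unfold ta
  have h : (0 : ℝ) ≤ (r / ρ) ^ (2 * ν) := by positivity
  rw [div_le_one (by linarith)]
  linarith

theorem one_sub_ta_le {ν ρ r : ℝ} (hρ : 0 < ρ) (hr : 0 ≤ r) :
    1 - ta ν ρ r ≤ (r / ρ) ^ (2 * ν) := by
  unfold ta
  have h : (0 : ℝ) ≤ (r / ρ) ^ (2 * ν) := by positivity
  have h1 : 1 - 1 / (1 + (r / ρ) ^ (2 * ν)) = (r / ρ) ^ (2 * ν) / (1 + (r / ρ) ^ (2 * ν)) := by
    field_simp
    ring
  rw [h1]
  exact div_le_self h (by linarith)

/-- `τ R ≤ ρ^(2ν) (1 + R)`. -/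
theorem ta_mul_le {ν ρ r : ℝ} (hν : 0 < ν) (hν4 : ν ≤ 1 / 4) (hρ : 0 < ρ) (hr : 0 < r) :
    ta ν ρ r * r ≤ ρ ^ (2 * ν) * (1 + r) := by
  have hb : (0 : ℝ) < (r / ρ) ^ (2 * ν) := by positivity
  have h1 : ta ν ρ r ≤ 1 / (r / ρ) ^ (2 * ν) := by
    unfold ta
    exact one_div_le_one_div_of_le hb (by linarith)
  have h2 : 1 / (r / ρ) ^ (2 * ν) = ρ ^ (2 * ν) / r ^ (2 * ν) := by
    rw [Real.div_rpow hr.le hρ.le, one_div_div]
  have h3 : r / r ^ (2 * ν) ≤ 1 + r := by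
    have e : r / r ^ (2 * ν) = r ^ (1 - 2 * ν) := by
      rw [Real.rpow_sub hr, Real.rpow_one]
    rw [e]
    rcases le_total r 1 with h | h
    · have := Real.rpow_le_one hr.le h (by linarith : (0 : ℝ) ≤ 1 - 2 * ν)
      linarith
    · have : r ^ (1 - 2 * ν) ≤ r ^ (1 : ℝ) :=
        Real.rpow_le_rpow_of_exponent_le h (by linarith)
      rw [Real.rpow_one] at this
      linarith
  calc ta ν ρ r * r ≤ 1 / (r / ρ) ^ (2 * ν) * r := by gcongr
    _ = ρ ^ (2 * ν) * (r / r ^ (2 * ν)) := by rw [h2]; ring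
    _ ≤ ρ ^ (2 * ν) * (1 + r) := by gcongr

theorem continuous_gr {H : ℂ → ℂ} (hx : Continuous (dx H)) (hy : Continuous (dy H)) :
    Continuous (gr H) := by
  unfold gr
  fun_prop

theorem gr_nonneg (H : ℂ → ℂ) (z : ℂ) : 0 ≤ gr H z := by
  unfold gr
  positivity

/-- Part (e) of packet ONE. -/
theorem one_e (hSPB : S_SPB) (hV : volume Q = 1) (hK2 : S_K2) (ε ν ρ : ℝ) (H : ℂ → ℂ)
    (hε : 0 < ε) (hε1 : ε ≤ 1) (hν : 0 < ν) (hν4 : ν ≤ 1 / 4) (hρ : 0 < ρ) (hH : SP H) :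
    ∫ z in Q, ta ν ρ (Rr ε H z) * Real.sqrt (gr H z) ≤
      ρ ^ ν * (9 / 2 + 2 * (∫ z in Q, ‖H z‖ ^ 2) + ∫ z in Q, ‖hl H z‖ ^ 2) := by
  obtain ⟨h1, h2, h3, h4⟩ := hSPB
  obtain ⟨hdx, hdy, hhl, hzb, -, -, -, -⟩ := h1 H hH
  have cH : Continuous H := hH.smooth.continuous
  have cx : Continuous (dx H) := hdx.smooth.continuous
  have cy : Continuous (dy H) := hdy.smooth.continuous
  have chl : Continuous (hl H) := hhl.smooth.continuous
  have cR : Continuous (Rr ε H) := (h2 ε H hε hH).1.smooth.continuous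
  have cT : Continuous (fun z => ta ν ρ (Rr ε H z)) := (h3 ε ν ρ H hε hρ hH).1.smooth.continuous
  have cgr : Continuous (gr H) := continuous_gr cx cy
  set θ : ℝ := ρ ^ ν with hθ
  have hθ0 : 0 < θ := by positivity
  have hθ2 : ρ ^ (2 * ν) = θ ^ 2 := by
    rw [hθ, ← Real.rpow_natCast (ρ ^ ν) 2, ← Real.rpow_mul hρ.le]
    norm_num
    ring_nf
  -- first step
  have s1 : ∫ z in Q, ta ν ρ (Rr ε H z) * Real.sqrt (gr H z) ≤
      ∫ z in Q, (θ / 2 + 1 / (2 * θ) * (ta ν ρ (Rr ε H z) * gr H z)) := by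
    apply setIntegral_mono
    · exact integrableOn_Q (cT.mul cgr.sqrt)
    · exact integrableOn_Q (by fun_prop)
    · intro z
      have t0 := ta_nonneg (ν := ν) hρ (Rr_pos hε H z).le
      have t1 := ta_le_one (ν := ν) hρ (Rr_pos hε H z).le
      set t := ta ν ρ (Rr ε H z)
      have hg := gr_nonneg H z
      set g := gr H z
      have hs : Real.sqrt g ^ 2 = g := Real.sq_sqrt hg
      have key : 0 ≤ (θ - t * Real.sqrt g) ^ 2 := sq_nonneg _
      have e2 : t ^ 2 * g ≤ t * g := by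
        have : t ^ 2 ≤ t := by nlinarith
        exact mul_le_mul_of_nonneg_right this hg
      have e3 : t * Real.sqrt g * (2 * θ) ≤ θ ^ 2 + t * g := by nlinarith
      have e4 : θ / 2 + 1 / (2 * θ) * (t * g) = (θ ^ 2 + t * g) / (2 * θ) := by
        field_simp
      simp only
      rw [e4, le_div_iff₀ (by positivity)]
      exact e3
  have s2 : ∫ z in Q, (θ / 2 + 1 / (2 * θ) * (ta ν ρ (Rr ε H z) * gr H z)) =
      θ / 2 + 1 / (2 * θ) * ∫ z in Q, ta ν ρ (Rr ε H z) * gr H z := by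
    rw [integral_add (integrableOn_Q continuous_const) (integrableOn_Q (by fun_prop)),
      integral_const_mul]
    simp [Measure.real, hV]
  have s3 := hK2 ε ν ρ H hε hν hν4 hρ hH
  have s4 : 2 * ∫ z in Q, ta ν ρ (Rr ε H z) * ‖H z‖ * (2 * ‖hl H z‖) ≤
      2 * ∫ z in Q, θ ^ 2 * (4 / 2 + (2 * ‖H z‖ ^ 2 + 2) + ‖hl H z‖ ^ 2) := by
    gcongr 2 * ?_
    apply setIntegral_mono
    · exact integrableOn_Q (by fun_prop)
    · exact integrableOn_Q (by fun_prop)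
    · intro z
      have hR := Rr_pos hε H z
      have hR2 := Rr_sq (ε := ε) H z
      have hm := ta_mul_le hν hν4 hρ hR
      rw [hθ2] at hm
      have t0 := ta_nonneg (ν := ν) hρ hR.le
      have hHR : ‖H z‖ ≤ Rr ε H z := by
        apply le_of_sq_le_sq _ hR.le
        rw [hR2]
        nlinarith
      set t := ta ν ρ (Rr ε H z)
      set R := Rr ε H z
      set a := ‖hl H z‖
      have ha : 0 ≤ a := norm_nonneg _
      have e1 : t * ‖H z‖ ≤ θ ^ 2 * (1 + R) :=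
        (mul_le_mul_of_nonneg_left hHR t0).trans hm
      have e2 : t * ‖H z‖ * (2 * a) ≤ θ ^ 2 * (1 + R) * (2 * a) :=
        mul_le_mul_of_nonneg_right e1 (by positivity)
      have e3 : (1 + R) * (2 * a) ≤ (1 + R) ^ 2 + a ^ 2 := by nlinarith [sq_nonneg (1 + R - a)]
      have e4 : (1 + R) ^ 2 ≤ 2 + 2 * R ^ 2 := by nlinarith [sq_nonneg (1 - R)]
      have e5 : ε ^ 2 ≤ 1 := by nlinarith
      have e6 : (1 + R) * (2 * a) ≤ 4 / 2 + (2 * ‖H z‖ ^ 2 + 2) + a ^ 2 := by nlinarith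
      simp only
      calc t * ‖H z‖ * (2 * a) ≤ θ ^ 2 * (1 + R) * (2 * a) := e2
        _ = θ ^ 2 * ((1 + R) * (2 * a)) := by ring
        _ ≤ _ := by gcongr
  have s5 : 2 * ∫ z in Q, θ ^ 2 * (4 / 2 + (2 * ‖H z‖ ^ 2 + 2) + ‖hl H z‖ ^ 2) =
      2 * (θ ^ 2 * (4 + 2 * (∫ z in Q, ‖H z‖ ^ 2) + ∫ z in Q, ‖hl H z‖ ^ 2)) := by
    rw [integral_const_mul, integral_add (integrableOn_Q (by fun_prop))
      (integrableOn_Q (by fun_prop)), integral_add (integrableOn_Q (by fun_prop))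
      (integrableOn_Q (by fun_prop)), integral_add (integrableOn_Q (by fun_prop))
      (integrableOn_Q (by fun_prop)), integral_const_mul]
    simp only [integral_const, Measure.real, Measure.restrict_apply MeasurableSet.univ,
      univ_inter, hV, ENNReal.toReal_one, smul_eq_mul, one_mul]
    ring
  calc ∫ z in Q, ta ν ρ (Rr ε H z) * Real.sqrt (gr H z)
      ≤ θ / 2 + 1 / (2 * θ) * ∫ z in Q, ta ν ρ (Rr ε H z) * gr H z := s1.trans s2.le
    _ ≤ θ / 2 + 1 / (2 * θ) *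
        (2 * (θ ^ 2 * (4 + 2 * (∫ z in Q, ‖H z‖ ^ 2) + ∫ z in Q, ‖hl H z‖ ^ 2))) := by
        gcongr
        exact s3.trans (s4.trans s5.le)
    _ = θ * (9 / 2 + 2 * (∫ z in Q, ‖H z‖ ^ 2) + ∫ z in Q, ‖hl H z‖ ^ 2) := by
        field_simp
        ring

end

end Pool.Agent.Helper57.IW
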